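import Mathlib
import Pool.Agent.H903Z.SS.Defs
import Pool.Agent.H903Z.SS.Main

set_option autoImplicit false

open scoped Manifold ContDiff

namespace Pool.Agent.Results.MP_c32980_lc.ABorel

open Pool.Agent.H903Z.SS

/-- For every closed smooth manifold `M` and every regularity `r`, the smooth diffeomorphisms that
are topologically conjugate to a structurally stable diffeomorphism of class `C^r` (at least `C^1`)
form a Borel set for the `C^∞` topology. -/
theorem result (n : ℕ) (M : Type) [TopologicalSpace M] [T2Space M] [CompactSpace M]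
    [ChartedSpace (EuclideanSpace ℝ (Fin n)) M] [IsManifold (𝓡 n) ∞ M] (r : WithTop ℕ∞) :
    @MeasurableSet _ (@borel _ (crTopology n M ∞))
      {f : Diff n M ∞ | ∃ g : Diff n M 1, ContMDiff (𝓡 n) (𝓡 n) r g ∧
        ContMDiff (𝓡 n) (𝓡 n) r g.symm ∧ StructStable g ∧ TopConj (f : M → M) g} :=
  Pool.Agent.H903Z.SS.main n M r

end Pool.Agent.Results.MP_c32980_lc.ABorel
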